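import Pool.Agent.Lib.MP_a813f9_gt.Extension

/-!
# Two-scale covers of abelian groups
-/

set_option autoImplicit false
open Set

namespace Pool.Agent.Lib.MP_a813f9_gt

/-- finitely many real functionals that detect a finitely generated subgroup of an abelian
group up to finite ambiguity -/
lemma exists_functionals {M : Type} [AddCommGroup M] (K : AddSubgroup M) (hK : K.FG) :
    ∃ (ι : Type) (_ : Fintype ι) (ℓ : ι → M →+ ℝ), ∀ C : ℝ, {k : M | k ∈ K ∧ ∀ j, |ℓ j k| ≤ C}.Finite := by
  classical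
  have hfg : Module.Finite ℤ K := by
    rw [Module.Finite.iff_addGroup_fg]
    exact (AddGroup.fg_iff_addSubgroup_fg K).mpr hK
  let T : Submodule ℤ K := Submodule.torsion ℤ K
  have hfin : Finite T := by
    have : Module.Finite ℤ T := inferInstance
    exact Module.finite_of_fg_torsion T (Submodule.torsion_isTorsion)
  have hfree : Module.Free ℤ (K ⧸ T) := Module.free_of_finite_type_torsion_free'
  let bas := Module.Free.chooseBasis ℤ (K ⧸ T)
  let J := Module.Free.ChooseBasisIndex ℤ (K ⧸ T)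
  have hJ : Fintype J := inferInstance
  have hext : ∀ j : J, ∃ ℓ : M →+ ℝ, ∀ k : K, ℓ k = ((bas.coord j (T.mkQ k) : ℤ) : ℝ) := by
    intro j
    obtain ⟨h, hh⟩ := (Module.Baer.of_divisible ℝ).extension_property_addMonoidHom
      K.subtype (Subtype.val_injective) ((Int.castAddHom ℝ).comp
        ((bas.coord j).toAddMonoidHom.comp T.mkQ.toAddMonoidHom))
    exact ⟨h, fun k => DFunLike.congr_fun hh k⟩
  choose ℓ hℓ using hext
  refine ⟨J, hJ, ℓ, fun C => ?_⟩
  have hfinite : {k : K | ∀ j, |((bas.coord j (T.mkQ k) : ℤ) : ℝ)| ≤ C}.Finite := by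
    have h1 : {v : J → ℤ | ∀ j, |((v j : ℤ) : ℝ)| ≤ C}.Finite := by
      have : {v : J → ℤ | ∀ j, |((v j : ℤ) : ℝ)| ≤ C} ⊆ Set.Icc (fun _ => -⌈C⌉) (fun _ => ⌈C⌉) := by
        intro v hv
        rw [Set.mem_Icc, Pi.le_def, Pi.le_def]
        constructor
        · intro j
          have h2 := (abs_le.mp (hv j)).1
          have h3 := Int.le_ceil C
          have : (-⌈C⌉ : ℝ) ≤ (v j : ℝ) := by linarith
          exact_mod_cast this
        · intro j
          have h2 := (abs_le.mp (hv j)).2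
          have h3 := Int.le_ceil C
          have : ((v j : ℤ) : ℝ) ≤ (⌈C⌉ : ℝ) := by linarith
          exact_mod_cast this
      exact (Set.finite_Icc _ _).subset this
    have h2 := h1.preimage' (f := fun k : K => fun j => bas.coord j (T.mkQ k)) (by
      intro v _
      by_cases hne : ∃ k0 : K, (fun j => bas.coord j (T.mkQ k0)) = v
      · obtain ⟨k0, hk0⟩ := hne
        have : ((fun k : K => fun j => bas.coord j (T.mkQ k)) ⁻¹' {v}) ⊆
            (fun t : T => k0 + (t : K)) '' Set.univ := by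
          intro k hk
          have h3 : T.mkQ k = T.mkQ k0 := by
            apply bas.ext_elem
            intro j
            have h4 : (fun j => bas.coord j (T.mkQ k)) = v := hk
            exact (congrFun h4 j).trans (congrFun hk0 j).symm
          have h5 : k - k0 ∈ T := by
            have h6 : T.mkQ (k - k0) = 0 := by rw [map_sub, h3, sub_self]
            exact (Submodule.Quotient.mk_eq_zero T).mp h6
          exact ⟨⟨k - k0, h5⟩, trivial, by simp⟩
        exact (Set.toFinite _).subset this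
      · have : ((fun k : K => fun j => bas.coord j (T.mkQ k)) ⁻¹' {v}) = ∅ := by
          ext k
          simp only [Set.mem_preimage, Set.mem_singleton_iff, Set.mem_empty_iff_false, iff_false]
          exact fun h => hne ⟨k, h⟩
        rw [this]; exact Set.finite_empty)
    exact h2
  refine (hfinite.image (Subtype.val)).subset ?_
  rintro k ⟨hk, hk2⟩
  refine ⟨⟨k, hk⟩, fun j => ?_, rfl⟩
  have := hk2 j
  rw [hℓ j ⟨k, hk⟩] at this
  exact this

/-- greedy colouring along the natural numbers -/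
noncomputable def greedy (rel : ℕ → ℕ → Prop) : ℕ → ℕ := fun n =>
  sInf {k | ∀ m, ∀ _h : m < n, rel m n → greedy rel m ≠ k}
termination_by n => n

lemma greedy_spec (rel : ℕ → ℕ → Prop) (Δ : ℕ) (n : ℕ)
    (hΔ : ∃ F : Finset ℕ, F.card ≤ Δ ∧ ∀ m < n, rel m n → m ∈ F) :
    greedy rel n ≤ Δ ∧ ∀ m < n, rel m n → greedy rel m ≠ greedy rel n := by
  classical
  obtain ⟨F, hF, hF2⟩ := hΔ
  have hex : ∃ k ≤ Δ, k ∈ {k | ∀ m, ∀ _h : m < n, rel m n → greedy rel m ≠ k} := by
    have h1 : ¬ (Finset.range (Δ + 1) ⊆ F.image (greedy rel)) := by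
      intro h
      have h2 := Finset.card_le_card h
      have h3 := Finset.card_image_le (s := F) (f := greedy rel)
      rw [Finset.card_range] at h2
      omega
    rw [Finset.not_subset] at h1
    obtain ⟨k, hk1, hk2⟩ := h1
    refine ⟨k, by simpa [Nat.lt_succ_iff] using hk1, fun m hm hr heq => hk2 ?_⟩
    exact Finset.mem_image.mpr ⟨m, hF2 m hm hr, heq⟩
  obtain ⟨k, hk, hk2⟩ := hex
  rw [greedy.eq_1 rel n]
  refine ⟨(Nat.sInf_le hk2).trans hk, fun m hm hr => ?_⟩
  exact Nat.sInf_mem ⟨k, hk2⟩ m hm hr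

/-- countable graphs of bounded degree have finite proper colourings -/
lemma exists_coloring {Q : Type} [Countable Q] (adj : Q → Q → Prop) (hsymm : ∀ x y, adj x y → adj y x)
    (Δ : ℕ) (hΔ : ∀ x, ∃ F : Finset Q, F.card ≤ Δ ∧ ∀ y, adj x y → y ∈ F) :
    ∃ c : Q → ℕ, (∀ x, c x ≤ Δ) ∧ ∀ x y, x ≠ y → adj x y → c x ≠ c y := by
  classical
  obtain ⟨e, he⟩ := Countable.exists_injective_nat Q
  let rel : ℕ → ℕ → Prop := fun a b => ∃ x y, e x = a ∧ e y = b ∧ adj x y
  have hspec : ∀ y : Q, greedy rel (e y) ≤ Δ ∧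
      ∀ m < e y, rel m (e y) → greedy rel m ≠ greedy rel (e y) := by
    intro y
    apply greedy_spec
    obtain ⟨F, hF1, hF2⟩ := hΔ y
    refine ⟨F.image e, Finset.card_image_le.trans hF1, ?_⟩
    rintro m _ ⟨x, y', rfl, hy', hadj⟩
    rw [he hy'] at hadj
    exact Finset.mem_image_of_mem e (hF2 x (hsymm _ _ hadj))
  refine ⟨fun x => greedy rel (e x), fun x => (hspec x).1, fun x y hne hadj => ?_⟩
  rcases lt_trichotomy (e x) (e y) with h | h | h
  · exact (hspec y).2 (e x) h ⟨x, y, rfl, rfl, hadj⟩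
  · exact absurd (he h) hne
  · exact ((hspec x).2 (e y) h ⟨y, x, rfl, rfl, hsymm _ _ hadj⟩).symm

lemma floor_eq_of_inactive {u v ε : ℝ} (hu : ε < Int.fract u) (hv : ε < Int.fract v)
    (h : |u - v| < ε) : ⌊u⌋ = ⌊v⌋ := by
  have key : ∀ u v : ℝ, ε < Int.fract v → |u - v| < ε → ¬ ⌊u⌋ < ⌊v⌋ := by
    intro u v hv h hlt
    have h1 : ((⌊u⌋ : ℤ) : ℝ) + 1 ≤ ⌊v⌋ := by exact_mod_cast hlt
    have h2 := Int.lt_floor_add_one u
    have h3 := Int.floor_add_fract v
    have h4 := (abs_lt.mp h).1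
    linarith
  rcases lt_trichotomy ⌊u⌋ ⌊v⌋ with h1 | h1 | h1
  · exact absurd h1 (key u v hv h)
  · exact h1
  · exact absurd h1 (key v u hu (by rw [abs_sub_comm]; exact h))

lemma floor_eq_of_active {u v ε : ℝ} (hε : ε ≤ 1 / 2) (hu : Int.fract u ≤ ε)
    (hv : Int.fract v ≤ ε) (h : |u - v| < ε) : ⌊u⌋ = ⌊v⌋ := by
  have key : ∀ u v : ℝ, Int.fract u ≤ ε → |u - v| < ε → ¬ ⌊u⌋ < ⌊v⌋ := by
    intro u v hu h hlt
    have h1 : ((⌊u⌋ : ℤ) : ℝ) + 1 ≤ ⌊v⌋ := by exact_mod_cast hlt
    have h2 := Int.floor_le v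
    have h3 := Int.floor_add_fract u
    have h4 := (abs_lt.mp h).1
    linarith
  rcases lt_trichotomy ⌊u⌋ ⌊v⌋ with h1 | h1 | h1
  · exact absurd h1 (key u v hu h)
  · exact h1
  · exact absurd h1 (key v u hv (by rw [abs_sub_comm]; exact h))

lemma color_eq {s t : ℝ} {c c' L : ℕ} (hc : c < L) (hc' : c' < L)
    (h1 : Int.fract (s - c / L) ≤ 1 / (2 * L)) (h2 : Int.fract (t - c' / L) ≤ 1 / (2 * L))
    (h : |s - t| < 1 / (2 * L)) : c = c' := by
  have hL : (0 : ℝ) < L := by exact_mod_cast (Nat.zero_le _).trans_lt hc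
  have e1 := Int.floor_add_fract (s - c / L)
  have e2 := Int.floor_add_fract (t - c' / L)
  have p1 := Int.fract_nonneg (s - c / L)
  have p2 := Int.fract_nonneg (t - c' / L)
  set a := ⌊s - c / L⌋
  set b := ⌊t - c' / L⌋
  set δ := Int.fract (s - c / L)
  set δ' := Int.fract (t - c' / L)
  have hs : L * s = L * a + c + L * δ := by
    have : s = a + δ + c / L := by linarith
    rw [this]; field_simp; ring
  have ht : L * t = L * b + c' + L * δ' := by
    have : t = b + δ' + c' / L := by linarith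
    rw [this]; field_simp; ring
  have q1 : L * δ ≤ 1 / 2 := by
    calc L * δ ≤ L * (1 / (2 * L)) := mul_le_mul_of_nonneg_left h1 hL.le
      _ = 1 / 2 := by field_simp
  have q2 : L * δ' ≤ 1 / 2 := by
    calc L * δ' ≤ L * (1 / (2 * L)) := mul_le_mul_of_nonneg_left h2 hL.le
      _ = 1 / 2 := by field_simp
  have q3 : 0 ≤ L * δ := mul_nonneg hL.le p1
  have q4 : 0 ≤ L * δ' := mul_nonneg hL.le p2
  have r1 : L * s - L * t < 1 / 2 := by
    calc L * s - L * t = L * (s - t) := by ring
      _ < L * (1 / (2 * L)) := mul_lt_mul_of_pos_left (abs_lt.mp h).2 hL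
      _ = 1 / 2 := by field_simp
  have r2 : -(1 / 2) < L * s - L * t := by
    calc -((1 : ℝ) / 2) = L * (-(1 / (2 * L))) := by field_simp
      _ < L * (s - t) := mul_lt_mul_of_pos_left (abs_lt.mp h).1 hL
      _ = L * s - L * t := by ring
  have i1 : ((L : ℤ) * a + c - ((L : ℤ) * b + c') : ℤ) = 0 := by
    have k1 : (((L : ℤ) * a + c - ((L : ℤ) * b + c') : ℤ) : ℝ) < 1 := by push_cast; linarith
    have k2 : (-1 : ℝ) < (((L : ℤ) * a + c - ((L : ℤ) * b + c') : ℤ) : ℝ) := by
      push_cast; linarith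
    have k1' : ((L : ℤ) * a + c - ((L : ℤ) * b + c') : ℤ) < 1 := by exact_mod_cast k1
    have k2' : (-1 : ℤ) < ((L : ℤ) * a + c - ((L : ℤ) * b + c') : ℤ) := by exact_mod_cast k2
    omega
  have i2 : (c : ℤ) % L = (c' : ℤ) % L := by
    have : (c : ℤ) = c' + L * (b - a) := by linarith
    rw [this, Int.add_mul_emod_self_left]
  have i3 : ((c % L : ℕ) : ℤ) = ((c' % L : ℕ) : ℤ) := by push_cast; exact i2
  have i4 : c % L = c' % L := by exact_mod_cast i3
  rwa [Nat.mod_eq_of_lt hc, Nat.mod_eq_of_lt hc'] at i4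

lemma exists_functionals_mul {A : Type} [CommGroup A] (K : Subgroup A) (hK : K.FG) :
    ∃ (ι : Type) (_ : Fintype ι) (g : ι → A → ℝ), (∀ j a b, g j (a * b) = g j a + g j b) ∧
      ∀ C : ℝ, {k : A | k ∈ K ∧ ∀ j, |g j k| ≤ C}.Finite := by
  obtain ⟨ι, hι, ℓ, hℓ⟩ := exists_functionals (Subgroup.toAddSubgroup K)
    ((Subgroup.fg_iff_add_fg K).mp hK)
  exact ⟨ι, hι, fun j a => ℓ j (Additive.ofMul a), fun j a b =>
    map_add (ℓ j) (Additive.ofMul a) (Additive.ofMul b), fun C => hℓ C⟩

theorem abelian_labelTwo {A : Type} [CommGroup A] [Countable A] {d : A → A → ℝ}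
    (hd : IsProperLeftInvariant d) : LabelTwo 1 d := by
  classical
  intro S
  let K : Subgroup A := Subgroup.closure {a | d 1 a ≤ S}
  have hKfg : K.FG := by
    rw [Subgroup.fg_iff]
    exact ⟨_, rfl, hd.proper S⟩
  obtain ⟨ι, hι, g, hg, hgfin⟩ := exists_functionals_mul K hKfg
  have hginv : ∀ j a, g j a⁻¹ = - g j a := by
    intro j a
    have h1 := hg j 1 1
    have h2 := hg j a a⁻¹
    rw [mul_one] at h1
    rw [mul_inv_cancel] at h2
    linarith
  refine ⟨Fintype.card (Finset ι), fun T => ?_⟩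
  -- small variation
  obtain ⟨w, hw0, hw⟩ : ∃ w : ℝ, 0 < w ∧ ∀ a, d 1 a ≤ max S T → ∀ j, |g j a| < w := by
    obtain ⟨w, hw0, hw⟩ := hd.bdd_on_ball (fun a => ∑ j, |g j a|) (max S T)
    refine ⟨w + 1, by linarith, fun a ha j => ?_⟩
    have h1 := hw a ha
    have h2 : |g j a| ≤ ∑ j, |g j a| :=
      Finset.single_le_sum (f := fun j => |g j a|) (fun _ _ => abs_nonneg _) (Finset.mem_univ j)
    linarith
  have hdiff : ∀ a b, d a b ≤ max S T → ∀ j, |g j a - g j b| < w := by
    intro a b hab j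
    rw [hd.dist_eq] at hab
    have h1 := hw _ hab j
    rw [hg, hginv] at h1
    rw [abs_sub_comm]
    convert h1 using 2
    ring
  -- colouring of the cosets
  have hQc : Countable (A ⧸ K) := Quotient.countable
  let adj : A ⧸ K → A ⧸ K → Prop := fun x y => ∃ a b : A, (a : A ⧸ K) = x ∧ (b : A ⧸ K) = y ∧
    d a b ≤ T
  obtain ⟨c, hc, hc2⟩ := exists_coloring adj
    (by rintro x y ⟨a, b, h1, h2, h3⟩; exact ⟨b, a, h2, h1, by rw [hd.symm]; exact h3⟩)
    (hd.proper T).toFinset.card (by
      intro x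
      refine ⟨(hd.proper T).toFinset.image (fun t : A => x * (QuotientGroup.mk t : A ⧸ K)),
        Finset.card_image_le, ?_⟩
      rintro y ⟨a, b, rfl, rfl, h3⟩
      rw [Finset.mem_image]
      refine ⟨a⁻¹ * b, ?_, ?_⟩
      · rw [Set.Finite.mem_toFinset, Set.mem_ofPred_eq, ← hd.dist_eq]; exact h3
      · rw [← QuotientGroup.mk_mul, mul_inv_cancel_left])
  set L : ℕ := (hd.proper T).toFinset.card + 1 with hL
  have hLpos : (0 : ℝ) < L := by rw [hL]; positivity
  have hL1 : (1 : ℝ) ≤ L := by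
    rw [hL]
    push_cast
    linarith [Nat.cast_nonneg (α := ℝ) (hd.proper T).toFinset.card]
  have hclt : ∀ x, c x < L := fun x => Nat.lt_succ_of_le (hc x)
  set P : ℝ := 2 * w * L with hP
  have hPpos : 0 < P := by positivity
  have hwP : w / P = 1 / (2 * L) := by rw [hP]; field_simp
  have hdiffP : ∀ a b, d a b ≤ max S T → ∀ j, |g j a / P - g j b / P| < 1 / (2 * L) := by
    intro a b hab j
    rw [← hwP, ← sub_div, abs_div, abs_of_pos hPpos]
    exact div_lt_div_of_pos_right (hdiff a b hab j) hPpos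
  let u : ι → A → ℝ := fun j a => g j a / P - c (a : A ⧸ K) / L
  let act : A → Finset ι := fun a => Finset.univ.filter (fun j => Int.fract (u j a) ≤ 1 / (2 * L))
  have hact : ∀ a j, j ∈ act a ↔ Int.fract (u j a) ≤ 1 / (2 * L) := by
    intro a j; simp [act]
  let label : A → (A ⧸ K) × Finset ι × (ι → ℤ) := fun a => ((a : A ⧸ K), act a, fun j => ⌊u j a⌋)
  obtain ⟨B, hB0, hB⟩ : ∃ B : ℝ, 0 ≤ B ∧ ∀ k ∈ K, (∀ j, |g j k| ≤ P) → d 1 k ≤ B := by
    obtain ⟨B, hB⟩ := ((hgfin P).image (fun k => d 1 k)).bddAbove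
    refine ⟨max B 0, le_max_right _ _, fun k hk hkP => ?_⟩
    exact (hB (Set.mem_image_of_mem _ ⟨hk, hkP⟩)).trans (le_max_left _ _)
  have hlab : ∀ a b, label a = label b → d a b ≤ B := by
    intro a b hab
    have h1 : (a : A ⧸ K) = (b : A ⧸ K) := congrArg Prod.fst hab
    have h2 : ∀ j, ⌊u j a⌋ = ⌊u j b⌋ := fun j => congrFun (congrArg (fun l => l.2.2) hab) j
    rw [hd.dist_eq]
    refine hB _ (QuotientGroup.eq.mp h1) (fun j => ?_)
    have h3 := Int.abs_sub_lt_one_of_floor_eq_floor (h2 j)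
    rw [hg, hginv]
    have h4 : u j a - u j b = (g j a - g j b) / P := by
      simp only [u, h1]; ring
    rw [h4, abs_div, abs_of_pos hPpos, div_lt_one hPpos] at h3
    rw [abs_sub_comm] at h3
    rw [neg_add_eq_sub]
    exact h3.le
  -- the representative of a label
  let rep : (A ⧸ K) × Finset ι × (ι → ℤ) → A → A := fun l a0 =>
    if h : ∃ a, label a = l then h.choose else a0
  have hrep : ∀ a a0, label (rep (label a) a0) = label a := by
    intro a a0
    have h : ∃ a', label a' = label a := ⟨a, rfl⟩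
    simp only [rep, dif_pos h]
    exact h.choose_spec
  have hrep' : ∀ a b, label a = label b → rep (label a) a = rep (label b) b := by
    intro a b hab
    have h : ∃ a', label a' = label b := ⟨b, rfl⟩
    rw [hab]
    simp only [rep, dif_pos h]
  let κ : A → ℕ := fun a => if act a = ∅ then 0 else 1 + (Fintype.equivFin (Finset ι) (act a) : ℕ)
  have hκ0 : ∀ a, κ a < 1 → act a = ∅ := by
    intro a ha
    by_contra hne
    simp only [κ, if_neg hne] at ha
    omega
  have hκ1 : ∀ a, 1 ≤ κ a → act a ≠ ∅ := by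
    intro a ha he
    simp only [κ, if_pos he] at ha
    omega
  have hκeq : ∀ a b, κ a = κ b → act a = act b := by
    intro a b hab
    by_cases ha : act a = ∅
    · have : κ a < 1 := by simp [κ, ha]
      rw [ha, hκ0 b (by rw [← hab]; exact this)]
    · have hb : act b ≠ ∅ := by
        apply hκ1
        rw [← hab]
        simp only [κ, if_neg ha]
        omega
      simp only [κ, if_neg ha, if_neg hb] at hab
      have : (Fintype.equivFin (Finset ι) (act a)) = (Fintype.equivFin (Finset ι) (act b)) :=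
        Fin.ext (by omega)
      exact (Fintype.equivFin (Finset ι)).injective this
  have hlabel : ∀ a b : A, (a : A ⧸ K) = (b : A ⧸ K) → act a = act b → d a b ≤ max S T →
      label a = label b := by
    intro a b h1 h2 h3
    have h4 : (fun j => ⌊u j a⌋) = fun j => ⌊u j b⌋ := by
      funext j
      have h5 : |u j a - u j b| < 1 / (2 * L) := by
        have : u j a - u j b = g j a / P - g j b / P := by simp only [u, h1]; ring
        rw [this]
        exact hdiffP a b h3 j
      by_cases hj : j ∈ act a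
      · have hj' : j ∈ act b := by rw [← h2]; exact hj
        refine floor_eq_of_active ?_ ((hact a j).mp hj) ((hact b j).mp hj') h5
        rw [div_le_div_iff₀ (by positivity) (by norm_num)]
        linarith
      · have hj' : j ∉ act b := by rw [← h2]; exact hj
        exact floor_eq_of_inactive (not_le.mp (fun h => hj ((hact a j).mpr h)))
          (not_le.mp (fun h => hj' ((hact b j).mpr h))) h5
    simp only [label, h1, h2, h4]
  refine ⟨B, κ, fun a => rep (label a) a, ?_, ?_, ?_, ?_⟩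
  · intro a
    simp only [κ]
    split_ifs
    · omega
    · have := (Fintype.equivFin (Finset ι) (act a)).isLt
      omega
  · intro a
    exact hlab _ _ (hrep a a).symm
  · intro a b hab ha h3
    apply hrep'
    have hmem : a⁻¹ * b ∈ K := by
      apply Subgroup.subset_closure
      rw [Set.mem_ofPred_eq, ← hd.dist_eq]; exact h3
    exact hlabel a b (QuotientGroup.eq.mpr hmem) (hκeq a b hab) (h3.trans (le_max_left _ _))
  · intro a b hab ha h3
    apply hrep'
    have hI := hκeq a b hab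
    obtain ⟨j, hj⟩ := Finset.nonempty_iff_ne_empty.mpr (hκ1 a ha)
    have hj' : j ∈ act b := by rw [← hI]; exact hj
    have h4 := hdiffP a b (h3.trans (le_max_right _ _)) j
    have h5 := color_eq (hclt a) (hclt b) ((hact a j).mp hj) ((hact b j).mp hj') h4
    have h6 : (a : A ⧸ K) = (b : A ⧸ K) := by
      by_contra hne
      exact hc2 _ _ hne ⟨a, b, rfl, rfl, h3⟩ h5
    exact hlabel a b h6 hI (h3.trans (le_max_right _ _))

end Pool.Agent.Lib.MP_a813f9_gt
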