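import Pool.Agent.Lib.MP_a813f9_gt.Defs

/-!
# Chains, clusters, and reformulations of property C
-/

set_option autoImplicit false
open Set

namespace Pool.Agent.Lib.MP_a813f9_gt

/-- metric axioms used for chains -/
structure IsMet {X : Type} (d : X → X → ℝ) : Prop where
  self : ∀ x, d x x = 0
  symm : ∀ x y, d x y = d y x
  triangle : ∀ x y z, d x z ≤ d x y + d y z

lemma IsMet.nonneg {X : Type} {d : X → X → ℝ} (h : IsMet d) (x y : X) : 0 ≤ d x y := by
  have h1 := h.triangle x y x
  rw [h.self, h.symm y x] at h1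
  linarith

lemma IsProperLeftInvariant.met {G : Type} [Group G] {d : G → G → ℝ}
    (h : IsProperLeftInvariant d) : IsMet d := ⟨h.self, h.symm, h.triangle⟩

lemma IsMet.comp {X Y : Type} {d : X → X → ℝ} (h : IsMet d) (g : Y → X) :
    IsMet (fun a b => d (g a) (g b)) :=
  ⟨fun _ => h.self _, fun _ _ => h.symm _ _, fun _ _ _ => h.triangle _ _ _⟩

/-- one step of length at most `R` inside `A` -/
def Step {X : Type} (d : X → X → ℝ) (A : Set X) (R : ℝ) (x y : X) : Prop :=
  x ∈ A ∧ y ∈ A ∧ d x y ≤ R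

/-- chains inside `A` with steps of length at most `R` -/
def Chain {X : Type} (d : X → X → ℝ) (A : Set X) (R : ℝ) (x y : X) : Prop :=
  Relation.ReflTransGen (Step d A R) x y

/-- all `R`-chains in `A` have diameter at most `B` -/
def Clus {X : Type} (d : X → X → ℝ) (A : Set X) (R B : ℝ) : Prop :=
  ∀ x y, Chain d A R x y → d x y ≤ B

section chain
variable {X : Type} {d : X → X → ℝ} {A A' : Set X} {R R' B B' : ℝ}

lemma Chain.mono (hA : A ⊆ A') (hR : R ≤ R') {x y : X} (h : Chain d A R x y) :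
    Chain d A' R' x y := by
  induction h with
  | refl => exact Relation.ReflTransGen.refl
  | tail _ hs ih => exact Relation.ReflTransGen.tail ih ⟨hA hs.1, hA hs.2.1, hs.2.2.trans hR⟩

lemma Chain.symm (hd : IsMet d) {x y : X} (h : Chain d A R x y) : Chain d A R y x := by
  induction h with
  | refl => exact Relation.ReflTransGen.refl
  | tail _ hs ih =>
    exact Relation.ReflTransGen.head ⟨hs.2.1, hs.1, by rw [hd.symm]; exact hs.2.2⟩ ih

lemma Chain.mem {x y : X} (h : Chain d A R x y) (hx : x ∈ A) : y ∈ A := by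
  induction h with
  | refl => exact hx
  | tail _ hs _ => exact hs.2.1

lemma Chain.eq_of_notMem {x y : X} (h : Chain d A R x y) (hy : y ∉ A) : x = y := by
  induction h with
  | refl => rfl
  | tail _ hs _ => exact absurd hs.2.1 hy

lemma Clus.mono (h : Clus d A' R' B) (hA : A ⊆ A') (hR : R ≤ R') (hB : B ≤ B') :
    Clus d A R B' := fun x y hc => (h x y (hc.mono hA hR)).trans hB

/-- a function that is constant along steps is constant along chains -/
lemma Chain.const {α : Type} (L : X → α) (hL : ∀ x y, Step d A R x y → L x = L y) {x y : X}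
    (h : Chain d A R x y) : L x = L y := by
  induction h with
  | refl => rfl
  | tail _ hs ih => exact ih.trans (hL _ _ hs)

lemma clus_of_label {α : Type} (hd : IsMet d) (hB : 0 ≤ B) (L : X → α)
    (h1 : ∀ x y, Step d A R x y → L x = L y)
    (h2 : ∀ x ∈ A, ∀ y ∈ A, L x = L y → d x y ≤ B) : Clus d A R B := by
  intro x y h
  by_cases hx : x ∈ A
  · exact h2 x hx y (h.mem hx) (h.const L h1)
  · rw [(h.symm hd).eq_of_notMem hx, hd.self]; exact hB

/-- The chain stays inside a level set of an invariant. -/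
lemma Chain.restrict {α : Type} (L : X → α) (hL : ∀ x y, Step d A R x y → L x = L y) {x y : X}
    (h : Chain d A R x y) : Chain d {w ∈ A | L w = L x} R x y := by
  induction h with
  | refl => exact Relation.ReflTransGen.refl
  | tail hc hs ih =>
    rename_i b c
    refine Relation.ReflTransGen.tail ih ⟨⟨hs.1, ?_⟩, ⟨hs.2.1, ?_⟩, hs.2.2⟩
    · exact (Chain.const L hL hc).symm
    · exact ((Chain.const L hL hc).trans (hL _ _ hs)).symm

/-- merging of two sets, one of them clustered at a much larger scale -/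
lemma Clus.union (hd : IsMet d) {T b β : ℝ} (hT : 0 ≤ T) (hb : 0 ≤ b) (hβ : 0 ≤ β)
    (hA : Clus d A T b) (hA' : Clus d A' (b + 2 * T) β) :
    Clus d (A ∪ A') T (β + 2 * (b + T)) := by
  intro x y h
  have key : Chain d A T x y ∨ ∃ a a', d x a ≤ b + T ∧ Chain d A' (b + 2 * T) a a' ∧ a' ∈ A' ∧
      (a' = y ∨ ∃ y1, d a' y1 ≤ T ∧ Chain d A T y1 y ∧ y ∈ A) := by
    induction h with
    | refl => exact Or.inl Relation.ReflTransGen.refl
    | tail hc hs ih =>
      rename_i y y'
      obtain ⟨hy, hy', hyy'⟩ := hs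
      by_cases hy'A : y' ∈ A'
      · right
        rcases ih with ih | ⟨a, a', h1, h2, h3, h4⟩
        · refine ⟨y', y', ?_, Relation.ReflTransGen.refl, hy'A, Or.inl rfl⟩
          have := hA x y ih
          have := hd.triangle x y y'
          linarith
        · refine ⟨a, y', h1, ?_, hy'A, Or.inl rfl⟩
          refine Relation.ReflTransGen.tail h2 ⟨h3, hy'A, ?_⟩
          rcases h4 with rfl | ⟨y1, h5, h6, -⟩
          · linarith
          · have e1 := hA y1 y h6
            have e2 := hd.triangle a' y1 y'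
            have e3 := hd.triangle y1 y y'
            linarith
      · have hy'' : y' ∈ A := hy'.resolve_right hy'A
        rcases ih with ih | ⟨a, a', h1, h2, h3, h4⟩
        · by_cases hyA : y ∈ A
          · exact Or.inl (Relation.ReflTransGen.tail ih ⟨hyA, hy'', hyy'⟩)
          · right
            have hxy := ih.eq_of_notMem hyA
            have hyA' : y ∈ A' := hy.resolve_left hyA
            refine ⟨y, y, ?_, Relation.ReflTransGen.refl, hyA', Or.inr
              ⟨y', hyy', Relation.ReflTransGen.refl, hy''⟩⟩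
            rw [hxy, hd.self]; linarith
        · right
          rcases h4 with rfl | ⟨y1, h5, h6, h7⟩
          · exact ⟨a, a', h1, h2, h3, Or.inr ⟨y', hyy', Relation.ReflTransGen.refl, hy''⟩⟩
          · exact ⟨a, a', h1, h2, h3, Or.inr ⟨y1, h5,
              Relation.ReflTransGen.tail h6 ⟨h7, hy'', hyy'⟩, hy''⟩⟩
  rcases key with h1 | ⟨a, a', h1, h2, h3, h4⟩
  · have := hA x y h1
    linarith
  · have e0 := hA' a a' h2
    rcases h4 with rfl | ⟨y1, h5, h6, -⟩
    · have := hd.triangle x a a'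
      linarith
    · have e1 := hA y1 y h6
      have e2 := hd.triangle x a y
      have e3 := hd.triangle a a' y
      have e4 := hd.triangle a' y1 y
      linarith

end chain

/-- Merging finitely many sets with fast growing scales. -/
lemma clus_biUnion {X : Type} {d : X → X → ℝ} (hd : IsMet d) {T : ℝ} (hT : 0 ≤ T)
    (b β : ℕ → ℝ) (hb0 : b 0 = 0) (hβ : ∀ c, 0 ≤ β c) (hb : ∀ c, b (c + 1) = β c + 2 * (b c + T))
    (A : ℕ → Set X) (hA : ∀ c, Clus d (A c) (b c + 2 * T) (β c)) (l : ℕ) :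
    0 ≤ b l ∧ Clus d (⋃ c < l, A c) T (b l) := by
  induction l with
  | zero =>
    refine ⟨hb0.ge, ?_⟩
    intro x y h
    have : y ∉ (⋃ c < 0, A c) := by simp
    rw [h.eq_of_notMem this, hd.self, hb0]
  | succ l ih =>
    have h0 := hβ l
    refine ⟨by rw [hb]; linarith [ih.1], ?_⟩
    have : (⋃ c < l + 1, A c) = (⋃ c < l, A c) ∪ A l := by
      rw [Set.biUnion_lt_succ]
    rw [this, hb]
    exact Clus.union hd hT ih.1 h0 ih.2 (hA l)

/-- property C in terms of labels -/
def LabelC {X : Type} (d : X → X → ℝ) : Prop :=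
  ∀ R : ℕ → ℝ, ∃ (m : ℕ) (D : ℝ) (k : X → ℕ) (p : X → X), (∀ x, k x < m) ∧
    (∀ x, d x (p x) ≤ D) ∧ ∀ x y, k x = k y → d x y ≤ R (k x) → p x = p y

/-- property C in terms of clusters -/
def ClusC {X : Type} (d : X → X → ℝ) : Prop :=
  ∀ R : ℕ → ℝ, Monotone R → (∀ i, 0 < R i) → ∃ (n : ℕ) (A : ℕ → Set X) (B : ℝ),
    (∀ i < n, Clus d (A i) (R i) B) ∧ ∀ x, ∃ i < n, x ∈ A i

/-- two-scale covers in terms of labels -/
def LabelTwo {X : Type} (q : ℕ) (d : X → X → ℝ) : Prop :=
  ∀ S : ℝ, ∃ n : ℕ, ∀ T : ℝ, ∃ (B : ℝ) (k : X → ℕ) (p : X → X), (∀ x, k x < q + n) ∧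
    (∀ x, d x (p x) ≤ B) ∧
    (∀ x y, k x = k y → k x < q → d x y ≤ S → p x = p y) ∧
    (∀ x y, k x = k y → q ≤ k x → d x y ≤ T → p x = p y)

/-- from finitely many bounded families to labels -/
lemma exists_label {X : Type} {d : X → X → ℝ} {R : ℕ → ℝ} {n : ℕ} {U : ℕ → Set (Set X)}
    (h1 : ∀ i < n, ∃ B : ℝ, ∀ V ∈ U i, ∀ x ∈ V, ∀ y ∈ V, d x y ≤ B)
    (h2 : ∀ i < n, ∀ V ∈ U i, ∀ W ∈ U i, V ≠ W → ∀ x ∈ V, ∀ y ∈ W, R i < d x y)
    (h3 : ∀ x : X, ∃ i < n, ∃ V ∈ U i, x ∈ V) :
    ∃ (D : ℝ) (k : X → ℕ) (p : X → X), (∀ x, k x < n) ∧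
    (∀ x, d x (p x) ≤ D) ∧ ∀ x y, k x = k y → d x y ≤ R (k x) → p x = p y := by
  classical
  choose! Bf hBf using h1
  choose k hk V hV hxV using h3
  let pt : Set X → X → X := fun W x => if h : W.Nonempty then h.some else x
  have hpt : ∀ W x, x ∈ W → pt W x ∈ W ∧ ∀ y, pt W x = pt W y := by
    intro W x hx
    have hW : W.Nonempty := ⟨x, hx⟩
    refine ⟨?_, fun y => ?_⟩
    · simp only [pt, dif_pos hW]; exact hW.some_mem
    · simp only [pt, dif_pos hW]
  refine ⟨∑ i ∈ Finset.range n, |Bf i|, k, fun x => pt (V x) x, hk, ?_, ?_⟩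
  · intro x
    have e1 := hBf (k x) (hk x) (V x) (hV x) x (hxV x) _ (hpt (V x) x (hxV x)).1
    have e2 : |Bf (k x)| ≤ ∑ i ∈ Finset.range n, |Bf i| :=
      Finset.single_le_sum (f := fun i => |Bf i|) (fun i _ => abs_nonneg _)
        (Finset.mem_range.mpr (hk x))
    exact e1.trans ((le_abs_self _).trans e2)
  · intro x y hxy hd
    have hVV : V x = V y := by
      by_contra hne
      have := h2 (k x) (hk x) (V x) (hV x) (V y) (by rw [hxy]; exact hV y) hne x (hxV x) y (hxV y)
      linarith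
    change pt (V x) x = pt (V y) y
    rw [hVV]
    exact (hpt (V y) x (by rw [← hVV]; exact hxV x)).2 y

lemma PropertyC.label {X : Type} {d : X → X → ℝ} (h : PropertyC d) : LabelC d := by
  intro R
  obtain ⟨n, U, h1, h2, h3⟩ := h (fun i => max (R i) 1) (fun i => lt_max_of_lt_right one_pos)
  obtain ⟨D, k, p, hk, hp, hkp⟩ := exists_label h1 h2 h3
  exact ⟨n, D, k, p, hk, hp, fun x y hxy hd => hkp x y hxy (hd.trans (le_max_left _ _))⟩

lemma TwoScale.label {X : Type} {d : X → X → ℝ} {q : ℕ} (h : TwoScale q d) : LabelTwo q d := by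
  intro S
  obtain ⟨n, hn⟩ := h (max S 1) (lt_max_of_lt_right one_pos)
  refine ⟨n, fun T => ?_⟩
  obtain ⟨U, h1, h2, h2', h3⟩ := hn (max T 1) (lt_max_of_lt_right one_pos)
  obtain ⟨D, k, p, hk, hp, hkp⟩ := exists_label (R := fun i => if i < q then max S 1 else max T 1)
    h1 (fun i hi => by
      by_cases hq : i < q
      · simpa [hq] using h2 i hq
      · simpa [hq] using h2' i (not_lt.mp hq) hi) h3
  refine ⟨D, k, p, hk, hp, fun x y hxy hq hd => hkp x y hxy ?_, fun x y hxy hq hd =>
    hkp x y hxy ?_⟩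
  · simp only [hq, if_true]; exact hd.trans (le_max_left _ _)
  · simp only [not_lt.mpr hq, if_false]; exact hd.trans (le_max_left _ _)

/-- from clusters back to families -/
lemma ClusC.propertyC {X : Type} {d : X → X → ℝ} (hd : IsMet d) (h : ClusC d) : PropertyC d := by
  intro R hR
  obtain ⟨n, A, B, h1, h2⟩ := h (fun i => ∑ j ∈ Finset.range (i + 1), R j)
    (fun i j hij => Finset.sum_le_sum_of_subset_of_nonneg
      (by intro a ha; simp only [Finset.mem_range] at *; omega) (fun a _ _ => (hR a).le))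
    (fun i => Finset.sum_pos (fun a _ => hR a) ⟨0, by simp⟩)
  have hle : ∀ i, R i ≤ ∑ j ∈ Finset.range (i + 1), R j := fun i =>
    Finset.single_le_sum (f := R) (fun a _ => (hR a).le) (by simp)
  refine ⟨n, fun i => {C | ∃ x ∈ A i, C = {y | Chain d (A i) (R i) x y}}, ?_, ?_, ?_⟩
  · intro i hi
    refine ⟨B, ?_⟩
    rintro V ⟨z, hz, rfl⟩ x hx y hy
    have hxy : Chain d (A i) (R i) x y := Relation.ReflTransGen.trans (Chain.symm hd hx) hy
    exact h1 i hi x y (hxy.mono subset_rfl (hle i))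
  · intro i hi
    rintro V ⟨z, hz, rfl⟩ W ⟨w, hw, rfl⟩ hne x hx y hy
    by_contra hcon
    apply hne
    have hx' : x ∈ A i := Chain.mem hx hz
    have hy' : y ∈ A i := Chain.mem hy hw
    have hxy : Chain d (A i) (R i) x y :=
      Relation.ReflTransGen.single ⟨hx', hy', not_lt.mp hcon⟩
    have hzw : Chain d (A i) (R i) z w :=
      Relation.ReflTransGen.trans hx (Relation.ReflTransGen.trans hxy (Chain.symm hd hy))
    ext v
    constructor
    · intro hv
      exact Relation.ReflTransGen.trans (Chain.symm hd hzw) hv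
    · intro hv
      exact Relation.ReflTransGen.trans hzw hv
  · intro x
    obtain ⟨i, hi, hx⟩ := h2 x
    exact ⟨i, hi, _, ⟨x, hx, rfl⟩, Relation.ReflTransGen.refl⟩

/-- property C in terms of labels passes to subsets -/
lemma LabelC.comap {X Y : Type} {d : X → X → ℝ} (hd : IsMet d) (h : LabelC d) (g : Y → X) :
    LabelC (fun a b => d (g a) (g b)) := by
  classical
  intro R
  obtain ⟨m, D, k, p, hk, hp, hkp⟩ := h R
  let rep : ℕ × X → Y → Y := fun iz y0 =>
    if h : ∃ y : Y, k (g y) = iz.1 ∧ p (g y) = iz.2 then h.choose else y0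
  have hrep : ∀ y y0, k (g (rep (k (g y), p (g y)) y0)) = k (g y) ∧
      p (g (rep (k (g y), p (g y)) y0)) = p (g y) := by
    intro y y0
    have h : ∃ y' : Y, k (g y') = k (g y) ∧ p (g y') = p (g y) := ⟨y, rfl, rfl⟩
    simp only [rep, dif_pos h]
    exact h.choose_spec
  have hrep' : ∀ y y0 y1, rep (k (g y), p (g y)) y0 = rep (k (g y), p (g y)) y1 := by
    intro y y0 y1
    have h : ∃ y' : Y, k (g y') = k (g y) ∧ p (g y') = p (g y) := ⟨y, rfl, rfl⟩
    simp only [rep, dif_pos h]
  refine ⟨m, 2 * D, fun y => k (g y), fun y => rep (k (g y), p (g y)) y, fun y => hk _, ?_, ?_⟩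
  · intro y
    have e1 := hp (g y)
    have e2 := hp (g (rep (k (g y), p (g y)) y))
    rw [(hrep y y).2] at e2
    have e3 := hd.triangle (g y) (p (g y)) (g (rep (k (g y), p (g y)) y))
    rw [hd.symm (p (g y))] at e3
    change d (g y) (g (rep (k (g y), p (g y)) y)) ≤ 2 * D
    linarith
  · intro x y hxy hdist
    have := hkp (g x) (g y) hxy hdist
    change rep (k (g x), p (g x)) x = rep (k (g y), p (g y)) y
    rw [hrep' x x y]
    change k (g x) = k (g y) at hxy
    rw [hxy, this]

end Pool.Agent.Lib.MP_a813f9_gt
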