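import Mathlib

/-!
# Asymptotic property C and two-scale covers: definitions
-/

set_option autoImplicit false
open Set

namespace Pool.Agent.Lib.MP_a813f9_gt

/-- `d` is a proper left-invariant metric on the group `G`. -/
structure IsProperLeftInvariant {G : Type} [Group G] (d : G → G → ℝ) : Prop where
  self : ∀ x, d x x = 0
  symm : ∀ x y, d x y = d y x
  triangle : ∀ x y z, d x z ≤ d x y + d y z
  eq_of_zero : ∀ x y, d x y = 0 → x = y
  left : ∀ g x y, d (g * x) (g * y) = d x y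
  proper : ∀ r : ℝ, {x : G | d 1 x ≤ r}.Finite

/-- Asymptotic property C of the metric `d` on `X`: for all positive reals `R 0, R 1, ...` there
are finitely many uniformly bounded families `U i`, `i < n`, that cover `X`, such that `U i` is
`R i`-disjoint. -/
def PropertyC {X : Type} (d : X → X → ℝ) : Prop :=
  ∀ R : ℕ → ℝ, (∀ i, 0 < R i) → ∃ n : ℕ, ∃ U : ℕ → Set (Set X),
    (∀ i < n, ∃ B : ℝ, ∀ V ∈ U i, ∀ x ∈ V, ∀ y ∈ V, d x y ≤ B) ∧
    (∀ i < n, ∀ V ∈ U i, ∀ W ∈ U i, V ≠ W → ∀ x ∈ V, ∀ y ∈ W, R i < d x y) ∧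
    (∀ x : X, ∃ i < n, ∃ V ∈ U i, x ∈ V)

/-- Two-scale dimension of the metric `d` on `X` relative to `q`: for every `S > 0` there is `n`
such that for every `T > 0` the space `X` is covered by `q + n` uniformly bounded families, the
first `q` of which are `S`-disjoint and the last `n` of which are `T`-disjoint. -/
def TwoScale {X : Type} (q : ℕ) (d : X → X → ℝ) : Prop :=
  ∀ S : ℝ, 0 < S → ∃ n : ℕ, ∀ T : ℝ, 0 < T → ∃ U : ℕ → Set (Set X),
    (∀ i < q + n, ∃ B : ℝ, ∀ V ∈ U i, ∀ x ∈ V, ∀ y ∈ V, d x y ≤ B) ∧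
    (∀ i < q, ∀ V ∈ U i, ∀ W ∈ U i, V ≠ W → ∀ x ∈ V, ∀ y ∈ W, S < d x y) ∧
    (∀ i, q ≤ i → i < q + n → ∀ V ∈ U i, ∀ W ∈ U i, V ≠ W → ∀ x ∈ V, ∀ y ∈ W, T < d x y) ∧
    (∀ x : X, ∃ i < q + n, ∃ V ∈ U i, x ∈ V)

end Pool.Agent.Lib.MP_a813f9_gt
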