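import Pool.Agent.Lib.MP_a813f9_gt.Coarse

/-!
# The extension theorem for kernels with two-scale covers
-/

set_option autoImplicit false
open Set

namespace Pool.Agent.Lib.MP_a813f9_gt

section norm
variable {G : Type} [Group G] {d : G → G → ℝ}

lemma IsProperLeftInvariant.dist_eq (h : IsProperLeftInvariant d) (x y : G) :
    d x y = d 1 (x⁻¹ * y) := by
  rw [← h.left x⁻¹ x y, inv_mul_cancel]

lemma IsProperLeftInvariant.norm_inv (h : IsProperLeftInvariant d) (x : G) :
    d 1 x⁻¹ = d 1 x := by
  rw [← h.left x 1 x⁻¹, mul_one, mul_inv_cancel, h.symm]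

/-- moving by right multiplication by `t` costs the norm of `t` -/
lemma IsProperLeftInvariant.dist_mul_right (h : IsProperLeftInvariant d) (x t : G) :
    d x (x * t) = d 1 t := by
  rw [h.dist_eq, inv_mul_cancel_left]

/-- any function is bounded on balls -/
lemma IsProperLeftInvariant.bdd_on_ball (h : IsProperLeftInvariant d) (φ : G → ℝ) (r : ℝ) :
    ∃ w : ℝ, 0 ≤ w ∧ ∀ g, d 1 g ≤ r → φ g ≤ w := by
  obtain ⟨w, hw⟩ := ((h.proper r).image φ).bddAbove
  refine ⟨max w 0, le_max_right _ _, fun g hg => ?_⟩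
  exact (hw (Set.mem_image_of_mem φ hg)).trans (le_max_left _ _)

end norm

theorem ext_main {G H : Type} [Group G] [Group H] [Countable H]
    {dG : G → G → ℝ} {dH : H → H → ℝ} (hG : IsProperLeftInvariant dG)
    (hH : IsProperLeftInvariant dH) (f : G →* H) (hf : Function.Surjective f)
    (N : Subgroup G) (hN : ∀ x, x ∈ N ↔ f x = 1) {q : ℕ}
    (hq : LabelTwo q (fun a b : N => dG a b)) (hC : LabelC dH) : ClusC dG := by
  classical
  intro R hRmono hRpos
  have hGm := hG.met
  have hHm := hH.met
  -- control of `f`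
  have hctrl : ∀ r : ℝ, ∃ w : ℝ, ∀ x y, dG x y ≤ r → dH (f x) (f y) ≤ w := by
    intro r
    obtain ⟨w, -, hw⟩ := hG.bdd_on_ball (fun g => dH 1 (f g)) r
    refine ⟨w, fun x y hxy => ?_⟩
    rw [hG.dist_eq] at hxy
    have := hw _ hxy
    rw [hH.dist_eq, ← map_inv, ← map_mul]
    exact this
  choose ω hω using hctrl
  -- a section
  obtain ⟨s, hs⟩ := hf.hasRightInverse
  -- level zero cover of `H`
  obtain ⟨m, D, k, p, hk, hp, hkp⟩ := hC (fun k => ω (R (q * k + q)))
  obtain ⟨β, hβ0, hβ⟩ := hH.bdd_on_ball (fun h => dG 1 (s h)) D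
  -- two-scale covers of the kernel
  obtain ⟨n, hn⟩ := hq (R (q * m) + 2 * β)
  choose Bf κf pf hκ hB hκq hκT using hn
  -- level one cover of `H`
  obtain ⟨m', D', k', p', hk', hp', hkp'⟩ := hC (fun j => ω (R (q * m + n * (j + 1))) + 2 * D)
  -- the final scale
  set T : ℝ := R (q * m + n * m') with hT
  have hT0 : 0 ≤ T := (hRpos _).le
  -- finite colouring
  obtain ⟨e, he⟩ := Countable.exists_injective_nat H
  obtain ⟨l0, hl0⟩ : ∃ l0 : ℕ, ∀ h, dH 1 h ≤ D' → e h < l0 := by
    obtain ⟨w, hw⟩ := ((hH.proper D').image e).bddAbove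
    exact ⟨w + 1, fun h hh => Nat.lt_succ_of_le (hw (Set.mem_image_of_mem e hh))⟩
  -- the scales
  let b : ℕ → ℝ := fun c => Nat.rec (motive := fun _ => ℝ) 0
    (fun _ b => max 0 (2 * Bf (b + 2 * T + 2 * β) + 2 * β) + 2 * (b + T)) c
  have hb0 : b 0 = 0 := rfl
  let Bc : ℕ → ℝ := fun c => max 0 (2 * Bf (b c + 2 * T + 2 * β) + 2 * β)
  have hBc0 : ∀ c, 0 ≤ Bc c := fun c => le_max_left _ _
  have hb : ∀ c, b (c + 1) = Bc c + 2 * (b c + T) := fun c => rfl
  have hbnonneg : ∀ c, 0 ≤ b c := by
    intro c
    induction c with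
    | zero => exact hb0.ge
    | succ c ih => rw [hb]; linarith [hBc0 c]
  have hbmono : Monotone b := by
    apply monotone_nat_of_le_succ
    intro c
    rw [hb]; linarith [hBc0 c, hbnonneg c]
  -- the data attached to a point of `G`
  let z : G → H := fun x => p (f x)
  let z' : G → H := fun x => p' (z x)
  let cc : G → ℕ := fun x => m * e ((z' x)⁻¹ * z x) + k (f x)
  have hcc : ∀ x, cc x < m * l0 := by
    intro x
    have h1 : e ((z' x)⁻¹ * z x) < l0 := by
      apply hl0
      rw [← hH.dist_eq, hH.symm]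
      exact hp' _
    have h2 := hk (f x)
    calc cc x < m * e ((z' x)⁻¹ * z x) + m := by simp only [cc]; omega
      _ = m * (e ((z' x)⁻¹ * z x) + 1) := by ring
      _ ≤ m * l0 := Nat.mul_le_mul_left _ h1
  have hcceq : ∀ x y, cc x = cc y → z' x = z' y → k (f x) = k (f y) ∧ z x = z y := by
    intro x y h1 h2
    have hkx := hk (f x)
    have hky := hk (f y)
    have e1 : e ((z' x)⁻¹ * z x) = cc x / m := by
      simp only [cc]
      rw [Nat.mul_add_div (by omega), Nat.div_eq_of_lt hkx, add_zero]
    have e2 : e ((z' y)⁻¹ * z y) = cc y / m := by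
      simp only [cc]
      rw [Nat.mul_add_div (by omega), Nat.div_eq_of_lt hky, add_zero]
    have e3 : k (f x) = cc x % m := by
      simp only [cc]
      rw [Nat.mul_add_mod, Nat.mod_eq_of_lt hkx]
    have e4 : k (f y) = cc y % m := by
      simp only [cc]
      rw [Nat.mul_add_mod, Nat.mod_eq_of_lt hky]
    refine ⟨by rw [e3, e4, h1], ?_⟩
    have : (z' x)⁻¹ * z x = (z' y)⁻¹ * z y := he (by rw [e1, e2, h1])
    rw [h2] at this
    exact mul_left_cancel this
  have hνmem : ∀ x, (s (z x))⁻¹ * x * (s ((z x)⁻¹ * f x))⁻¹ ∈ N := by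
    intro x
    rw [hN, map_mul, map_mul, map_inv, map_inv, hs, hs]
    group
  let ν : G → N := fun x => ⟨(s (z x))⁻¹ * x * (s ((z x)⁻¹ * f x))⁻¹, hνmem x⟩
  have hν1 : ∀ x, dG x (s (z x) * (ν x : G)) ≤ β := by
    intro x
    have : s (z x) * (ν x : G) = x * (s ((z x)⁻¹ * f x))⁻¹ := by
      simp only [ν]; group
    rw [this, hG.dist_mul_right, hG.norm_inv]
    apply hβ
    rw [← hH.dist_eq, hH.symm]
    exact hp _
  have hν2 : ∀ x y, z x = z y → dG (ν x) (ν y) ≤ dG x y + 2 * β ∧
      dG x y ≤ dG (ν x) (ν y) + 2 * β := by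
    intro x y hxy
    have h1 := hν1 x
    have h2 := hν1 y
    have h3 : dG (ν x) (ν y) = dG (s (z x) * (ν x : G)) (s (z y) * (ν y : G)) := by
      rw [← hxy, hG.left]
    have t1 := hG.triangle (s (z x) * (ν x : G)) x (s (z y) * (ν y : G))
    have t2 := hG.triangle x y (s (z y) * (ν y : G))
    have t3 := hG.triangle x (s (z x) * (ν x : G)) y
    have t4 := hG.triangle (s (z x) * (ν x : G)) (s (z y) * (ν y : G)) y
    have s1 := hG.symm (s (z x) * (ν x : G)) x
    have s2 := hG.symm (s (z y) * (ν y : G)) y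
    constructor <;> linarith
  let ι : G → ℕ := fun x => κf (b (cc x) + 2 * T + 2 * β) (ν x)
  let P : G → N := fun x => pf (b (cc x) + 2 * T + 2 * β) (ν x)
  have hι : ∀ x, ι x < q + n := fun x => hκ _ _
  have hP : ∀ x, dG (ν x) (P x) ≤ Bf (b (cc x) + 2 * T + 2 * β) := fun x => hB _ _
  have hPsame : ∀ x y, z x = z y → cc x = cc y → P x = P y → dG x y ≤ Bc (cc x) := by
    intro x y h1 h2 h3
    have e1 := (hν2 x y h1).2
    have e2 := hP x
    have e3 := hP y
    rw [← h2, ← h3] at e3
    have e4 := hG.triangle (ν x) (P x) (ν y)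
    have e5 := hG.symm (P x) (ν y)
    calc dG x y ≤ 2 * Bf (b (cc x) + 2 * T + 2 * β) + 2 * β := by linarith
      _ ≤ Bc (cc x) := le_max_right _ _
  let idx : G → ℕ := fun x => if ι x < q then q * k (f x) + ι x
    else q * m + n * k' (z x) + (ι x - q)
  have hidx1 : ∀ x, ι x < q → idx x = q * k (f x) + ι x := fun x h => if_pos h
  have hidx2 : ∀ x, q ≤ ι x → idx x = q * m + n * k' (z x) + (ι x - q) :=
    fun x h => if_neg (not_lt.mpr h)
  have hidx1' : ∀ x, ι x < q → idx x < q * m := by
    intro x h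
    rw [hidx1 x h]
    have h2 := hk (f x)
    calc q * k (f x) + ι x < q * k (f x) + q := by omega
      _ = q * (k (f x) + 1) := by ring
      _ ≤ q * m := Nat.mul_le_mul_left _ h2
  have hidxlt : ∀ x, idx x < q * m + n * m' := by
    intro x
    rcases lt_or_ge (ι x) q with h | h
    · exact (hidx1' x h).trans_le (Nat.le_add_right _ _)
    · rw [hidx2 x h]
      have h2 := hk' (z x)
      have h3 := hι x
      calc q * m + n * k' (z x) + (ι x - q) < q * m + n * k' (z x) + n := by omega
        _ = q * m + n * (k' (z x) + 1) := by ring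
        _ ≤ q * m + n * m' := by
          have : n * (k' (z x) + 1) ≤ n * m' := Nat.mul_le_mul_left n h2
          omega
  refine ⟨q * m + n * m', fun I => {x | idx x = I}, b (m * l0), ?_, fun x =>
    ⟨idx x, hidxlt x, rfl⟩⟩
  intro I hI
  rcases lt_or_ge I (q * m) with hI1 | hI1
  · -- small index: the first `q` types
    have hsm : ∀ x, idx x = I → ι x < q := by
      intro x hx
      by_contra hcon
      have := hidx2 x (not_lt.mp hcon)
      omega
    have hdiv : ∀ x, idx x = I → k (f x) = I / q ∧ ι x = I % q := by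
      intro x hx
      have h1 := hsm x hx
      have h2 := hidx1 x h1
      rw [hx] at h2
      constructor
      · rw [h2, Nat.mul_add_div (by omega), Nat.div_eq_of_lt h1, add_zero]
      · rw [h2, Nat.mul_add_mod, Nat.mod_eq_of_lt h1]
    have hstep : ∀ x y, Step dG {x | idx x = I} (R I) x y → (z x, P x) = (z y, P y) := by
      rintro x y ⟨hx, hy, hxy⟩
      obtain ⟨hx1, hx2⟩ := hdiv x hx
      obtain ⟨hy1, hy2⟩ := hdiv y hy
      have hkk : k (f x) = k (f y) := by rw [hx1, hy1]
      have hιι : ι x = ι y := by rw [hx2, hy2]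
      have hIeq := hidx1 x (hsm x hx)
      rw [show idx x = I from hx] at hIeq
      have hR1 : R I ≤ R (q * k (f x) + q) := hRmono (by
        have := hsm x hx
        omega)
      have hz : z x = z y := hkp (f x) (f y) hkk (hω _ x y (hxy.trans hR1))
      have hcceq' : cc x = cc y := by
        simp only [cc, z', hz, hkk]
      have hR2 : R I ≤ R (q * m) := hRmono hI1.le
      have hPP : P x = P y := by
        have h5 : dG (ν x) (ν y) ≤ R (q * m) + 2 * β := by
          have := (hν2 x y hz).1
          linarith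
        have := hκq (b (cc x) + 2 * T + 2 * β) (ν x) (ν y)
          (by have := hιι; simp only [ι] at this; rw [this, hcceq']) (hsm x hx) h5
        simp only [P]
        rw [this, hcceq']
      rw [hz, hPP]
    refine clus_of_label hGm (hbnonneg _) (fun x => (z x, P x)) hstep ?_
    intro x hx y hy hL
    have hz : z x = z y := congrArg Prod.fst hL
    have hPP : P x = P y := congrArg Prod.snd hL
    have hkk : k (f x) = k (f y) := by rw [(hdiv x hx).1, (hdiv y hy).1]
    have hcceq' : cc x = cc y := by simp only [cc, z', hz, hkk]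
    have h1 := hPsame x y hz hcceq' hPP
    have h2 : b (cc x + 1) ≤ b (m * l0) := hbmono (hcc x)
    rw [hb] at h2
    linarith [hbnonneg (cc x)]
  · -- large index: the last `n` types
    have hsm : ∀ x, idx x = I → q ≤ ι x := by
      intro x hx
      by_contra hcon
      have := hidx1' x (not_le.mp hcon)
      omega
    have hdiv : ∀ x, idx x = I → k' (z x) = (I - q * m) / n ∧ ι x - q = (I - q * m) % n := by
      intro x hx
      have h1 := hsm x hx
      have h2 := hidx2 x h1
      have h3 := hι x
      have h4 : I - q * m = n * k' (z x) + (ι x - q) := by omega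
      have h5 : ι x - q < n := by omega
      constructor
      · rw [h4, Nat.mul_add_div (by omega), Nat.div_eq_of_lt h5, add_zero]
      · rw [h4, Nat.mul_add_mod, Nat.mod_eq_of_lt h5]
    have hIT : R I ≤ T := hRmono hI.le
    have hstep : ∀ x y, Step dG {x | idx x = I} (R I) x y → z' x = z' y := by
      rintro x y ⟨hx, hy, hxy⟩
      obtain ⟨hx1, hx2⟩ := hdiv x hx
      obtain ⟨hy1, hy2⟩ := hdiv y hy
      have hkk : k' (z x) = k' (z y) := by rw [hx1, hy1]
      apply hkp' (z x) (z y) hkk
      have hIeq := hidx2 x (hsm x hx)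
      rw [show idx x = I from hx] at hIeq
      have hR1 : R I ≤ R (q * m + n * (k' (z x) + 1)) := hRmono (by
        have := hι x
        have e : n * (k' (z x) + 1) = n * k' (z x) + n := by ring
        omega)
      have h1 := hω _ x y (hxy.trans hR1)
      have h2 := hp (f x)
      have h3 := hp (f y)
      have h4 := hH.triangle (z x) (f x) (z y)
      have h5 := hH.triangle (f x) (f y) (z y)
      have h6 := hH.symm (z x) (f x)
      change dH (z x) (z y) ≤ ω (R (q * m + n * (k' (z x) + 1))) + 2 * D
      change dH (f x) (z x) ≤ D at h2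
      change dH (f y) (z y) ≤ D at h3
      linarith
    intro x y hchain
    have hres := Chain.restrict z' hstep hchain
    -- the colour classes over the class of `z' x`
    have hmain := clus_biUnion hGm hT0 b Bc hb0 hBc0 hb
      (fun c => {w | idx w = I ∧ z' w = z' x ∧ cc w = c}) (by
        intro c
        refine clus_of_label hGm (hBc0 c) P ?_ ?_
        · rintro u v ⟨⟨hu1, hu2, hu3⟩, ⟨hv1, hv2, hv3⟩, huv⟩
          obtain ⟨hkk, hz⟩ := hcceq u v (hu3.trans hv3.symm) (hu2.trans hv2.symm)
          have hιι : ι u = ι v := by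
            have h1 := (hdiv u hu1).2
            have h2 := (hdiv v hv1).2
            have h3 := hsm u hu1
            have h4 := hsm v hv1
            omega
          have h5 : dG (ν u) (ν v) ≤ b (cc u) + 2 * T + 2 * β := by
            have := (hν2 u v hz).1
            rw [hu3]
            linarith
          have hcceq' : cc u = cc v := hu3.trans hv3.symm
          have := hκT (b (cc u) + 2 * T + 2 * β) (ν u) (ν v)
            (by have := hιι; simp only [ι] at this; rw [this, hcceq']) (hsm u hu1) h5
          simp only [P]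
          rw [this, hcceq']
        · rintro u ⟨hu1, hu2, hu3⟩ v ⟨hv1, hv2, hv3⟩ hPP
          obtain ⟨hkk, hz⟩ := hcceq u v (hu3.trans hv3.symm) (hu2.trans hv2.symm)
          have := hPsame u v hz (hu3.trans hv3.symm) hPP
          rw [hu3] at this
          exact this) (m * l0)
    refine hmain.2 x y (hres.mono ?_ hIT)
    rintro w ⟨hw1, hw2⟩
    simp only [Set.mem_iUnion]
    exact ⟨cc w, hcc w, hw1, hw2, rfl⟩

end Pool.Agent.Lib.MP_a813f9_gt
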