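import Pool.Agent.Lib.MP_a813f9_gt.Series

/-!
# The extension theorem for asymptotic property C
-/

set_option autoImplicit false
open Set

namespace Pool.Agent.Lib.MP_a813f9_gt

/-- bar induction for sequences of reals -/
lemma bar_induction (Q Good : ℕ → (ℕ → ℝ) → Prop)
    (hcongr : ∀ n r r', (∀ i < n, r i = r' i) → Good n r → Good n r')
    (hgood : ∀ n r, Good n r → Q n r)
    (hstep : ∀ n r, (∀ ρ, Q (n + 1) (Function.update r n ρ)) → Q n r)
    (hbar : ∀ r, ∃ n, Good n r) (r : ℕ → ℝ) : Q 0 r := by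
  classical
  by_contra h0
  have hnext : ∀ n r, ¬ Q n r → ∃ ρ, ¬ Q (n + 1) (Function.update r n ρ) := by
    intro n r hn
    by_contra hcon
    push Not at hcon
    exact hn (hstep n r hcon)
  choose! ρ hρ using hnext
  let seq : ℕ → (ℕ → ℝ) := fun n => Nat.rec (motive := fun _ => ℕ → ℝ) r
    (fun n s => Function.update s n (ρ n s)) n
  have hseq : ∀ n, seq (n + 1) = Function.update (seq n) n (ρ n (seq n)) := fun n => rfl
  have hnot : ∀ n, ¬ Q n (seq n) := by
    intro n
    induction n with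
    | zero => exact h0
    | succ n ih => rw [hseq]; exact hρ n (seq n) ih
  have hagree : ∀ n, ∀ i < n, seq n i = seq (i + 1) i := by
    intro n
    induction n with
    | zero => intro i hi; omega
    | succ n ih =>
      intro i hi
      rcases Nat.lt_succ_iff_lt_or_eq.mp hi with h | h
      · rw [hseq n, Function.update_of_ne (by omega), ih i h]
      · rw [h]
  obtain ⟨n, hn⟩ := hbar (fun i => seq (i + 1) i)
  exact hnot n (hgood n _ (hcongr n _ _ (fun i hi => (hagree n i hi).symm) hn))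

/-- good finite sequences of scales for `N` -/
def Good {X : Type} (d : X → X → ℝ) (n : ℕ) (r : ℕ → ℝ) : Prop :=
  ∃ (B : ℝ) (k : X → ℕ) (p : X → X), (∀ x, k x < n) ∧ (∀ x, d x (p x) ≤ B) ∧
    ∀ x y, k x = k y → d x y ≤ r (k x) → p x = p y

section full
variable {G H : Type} [Group G] [Group H]

/-- the induction statement -/
def Play (dG : G → G → ℝ) (f : G →* H) (R : ℕ → ℝ) (n : ℕ) (r : ℕ → ℝ) : Prop :=
  ∀ (M : ℕ) (C : Set H), ∃ (M' : ℕ) (B : ℝ) (κ : G → ℕ ⊕ ℕ), M ≤ M' ∧ 0 ≤ B ∧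
    (∀ h ∈ C, ∀ i < n, Clus dG {x | f x = h ∧ κ x = Sum.inl i} (r i) B) ∧
    (∀ I, Clus dG {x | f x ∈ C ∧ κ x = Sum.inr I} (R I) B) ∧
    (∀ x, f x ∈ C → (∃ i < n, κ x = Sum.inl i) ∨ (∃ I, M ≤ I ∧ I < M' ∧ κ x = Sum.inr I))

variable {dG : G → G → ℝ} {dH : H → H → ℝ}

lemma play_of_good (hG : IsProperLeftInvariant dG) (f : G →* H) (s : H → G)
    (hs : Function.RightInverse s f) (N : Subgroup G) (hN : ∀ x, x ∈ N ↔ f x = 1) (R : ℕ → ℝ)
    (n : ℕ) (r : ℕ → ℝ) (hg : Good (fun a b : N => dG a b) n r) : Play dG f R n r := by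
  obtain ⟨B, k, p, hk, hp, hkp⟩ := hg
  have hGm := hG.met
  intro M C
  have hmem : ∀ x, (s (f x))⁻¹ * x ∈ N := by
    intro x
    rw [hN, map_mul, map_inv, hs, inv_mul_cancel]
  let ν : G → N := fun x => ⟨(s (f x))⁻¹ * x, hmem x⟩
  have hν : ∀ x y, f x = f y → dG x y = dG (ν x) (ν y) := by
    intro x y hxy
    change dG x y = dG ((s (f x))⁻¹ * x) ((s (f y))⁻¹ * y)
    rw [hxy, hG.left]
  refine ⟨M, max 0 (2 * B), fun x => Sum.inl (k (ν x)), le_rfl, le_max_left _ _, ?_, ?_, ?_⟩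
  · intro h _ i hi
    refine clus_of_label hGm (le_max_left _ _) (fun x => p (ν x)) ?_ ?_
    · rintro x y ⟨⟨hx, hx2⟩, ⟨hy, hy2⟩, hxy⟩
      have hx3 : k (ν x) = i := Sum.inl_injective hx2
      have hy3 : k (ν y) = i := Sum.inl_injective hy2
      apply hkp _ _ (hx3.trans hy3.symm)
      change dG (ν x) (ν y) ≤ r (k (ν x))
      rw [← hν x y (hx.trans hy.symm), hx3]
      exact hxy
    · rintro x ⟨hx, hx2⟩ y ⟨hy, hy2⟩ hL
      rw [hν x y (hx.trans hy.symm)]
      have e1 : dG (ν x) (p (ν x)) ≤ B := hp (ν x)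
      have e2 : dG (ν y) (p (ν y)) ≤ B := hp (ν y)
      have hL' : p (ν x) = p (ν y) := hL
      rw [← hL', hGm.symm] at e2
      have e3 := hGm.triangle (ν x) (p (ν x)) (ν y)
      exact le_trans (by linarith) (le_max_right _ _)
  · intro I x y hc
    have : y ∉ {x | f x ∈ C ∧ (Sum.inl (k (ν x)) : ℕ ⊕ ℕ) = Sum.inr I} := by
      rintro ⟨-, h⟩
      exact absurd h (by simp)
    rw [hc.eq_of_notMem this, hGm.self]
    exact le_max_left _ _
  · intro x _
    exact Or.inl ⟨_, hk _, rfl⟩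

lemma play_step [Countable H] (hG : IsProperLeftInvariant dG) (hH : IsProperLeftInvariant dH)
    (f : G →* H) (R : ℕ → ℝ) (hRmono : Monotone R) (hRpos : ∀ i, 0 < R i) (hC : LabelC dH)
    (n : ℕ) (r : ℕ → ℝ) (ih : ∀ ρ, Play dG f R (n + 1) (Function.update r n ρ)) :
    Play dG f R n r := by
  classical
  intro M C
  have hGm := hG.met
  have hctrl : ∀ r : ℝ, ∃ w : ℝ, ∀ x y, dG x y ≤ r → dH (f x) (f y) ≤ w := by
    intro r
    obtain ⟨w, -, hw⟩ := hG.bdd_on_ball (fun g => dH 1 (f g)) r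
    refine ⟨w, fun x y hxy => ?_⟩
    rw [hG.dist_eq] at hxy
    have := hw _ hxy
    rw [hH.dist_eq, ← map_inv, ← map_mul]
    exact this
  choose ω hω using hctrl
  obtain ⟨m, D, k, p, hk, hp, hkp⟩ := hC (fun a => ω (R (M + a)))
  set T : ℝ := R (M + m) with hT
  have hT0 : 0 ≤ T := (hRpos _).le
  obtain ⟨e, he⟩ := Countable.exists_injective_nat H
  obtain ⟨l0, hl0⟩ : ∃ l0 : ℕ, ∀ h, dH 1 h ≤ D → e h < l0 := by
    obtain ⟨w, hw⟩ := ((hH.proper D).image e).bddAbove
    exact ⟨w + 1, fun h hh => Nat.lt_succ_of_le (hw (Set.mem_image_of_mem e hh))⟩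
  let col : H → ℕ := fun h => e ((p h)⁻¹ * h)
  have hcol : ∀ h, col h < l0 := by
    intro h
    apply hl0
    rw [← hH.dist_eq, hH.symm]
    exact hp _
  have hcolinj : ∀ h h', p h = p h' → col h = col h' → h = h' := by
    intro h h' h1 h2
    have := he h2
    rw [h1] at this
    exact mul_left_cancel this
  -- process the colours one after the other
  have key : ∀ c : ℕ, ∃ (Mc : ℕ) (b : ℝ) (κ : G → ℕ ⊕ ℕ), M + m ≤ Mc ∧ 0 ≤ b ∧
      (∀ h ∈ C, col h < c → ∀ i < n, Clus dG {x | f x = h ∧ κ x = Sum.inl i} (r i) b) ∧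
      (∀ I, Clus dG {x | (f x ∈ C ∧ col (f x) < c) ∧ κ x = Sum.inr I} (R I) b) ∧
      (∀ x, f x ∈ C → col (f x) < c → (∃ i < n + 1, κ x = Sum.inl i) ∨
        (∃ I, M + m ≤ I ∧ I < Mc ∧ κ x = Sum.inr I)) ∧
      (∀ z, Clus dG {x | (f x ∈ C ∧ col (f x) < c) ∧ p (f x) = z ∧ κ x = Sum.inl n} T b) := by
    intro c
    induction c with
    | zero =>
      refine ⟨M + m, 0, fun _ => Sum.inl 0, le_rfl, le_rfl, ?_, ?_, ?_, ?_⟩
      · intro h _ hlt; omega
      · intro I x y hc
        rw [hc.eq_of_notMem (fun h => by have := h.1.2; omega), hGm.self]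
      · intro x _ hlt; omega
      · intro z x y hc
        rw [hc.eq_of_notMem (fun h => by have := h.1.2; omega), hGm.self]
    | succ c ihc =>
      obtain ⟨Mc, b, κ, hMc, hb, h1, h2, h3, h4⟩ := ihc
      obtain ⟨M', B, κ', hM', hB, g1, g2, g3⟩ := ih (b + 2 * T) Mc {h | h ∈ C ∧ col h = c}
      have hbB1 : b ≤ B + 2 * (b + T) := by linarith
      have hbB2 : B ≤ B + 2 * (b + T) := by linarith
      obtain ⟨κn, hκn1, hκn2⟩ : ∃ κn : G → ℕ ⊕ ℕ, (∀ x, col (f x) = c → κn x = κ' x) ∧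
          (∀ x, col (f x) < c → κn x = κ x) :=
        ⟨fun x => if col (f x) = c then κ' x else κ x, fun x hx => if_pos hx,
          fun x hx => if_neg (by omega)⟩
      refine ⟨M', B + 2 * (b + T), κn, hMc.trans hM', by linarith, ?_, ?_, ?_, ?_⟩
      · intro h hh hlt i hi
        rcases Nat.lt_succ_iff_lt_or_eq.mp hlt with hlt' | heq
        · refine (h1 h hh hlt' i hi).mono ?_ le_rfl hbB1
          rintro x ⟨hx, hx2⟩
          refine ⟨hx, ?_⟩
          rwa [hκn2 x (by rw [hx]; exact hlt')] at hx2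
        · have := g1 h ⟨hh, heq⟩ i (by omega)
          rw [Function.update_of_ne (by omega)] at this
          refine this.mono ?_ le_rfl hbB2
          rintro x ⟨hx, hx2⟩
          refine ⟨hx, ?_⟩
          rwa [hκn1 x (by rw [hx]; exact heq)] at hx2
      · intro I
        rcases lt_or_ge I Mc with hI | hI
        · refine (h2 I).mono ?_ le_rfl hbB1
          rintro x ⟨⟨hx, hx2⟩, hx3⟩
          rcases Nat.lt_succ_iff_lt_or_eq.mp hx2 with hlt' | heq
          · rw [hκn2 x hlt'] at hx3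
            exact ⟨⟨hx, hlt'⟩, hx3⟩
          · exfalso
            rw [hκn1 x heq] at hx3
            rcases g3 x ⟨hx, heq⟩ with ⟨i, -, hi⟩ | ⟨I', hI1, hI2, hI3⟩
            · rw [hi] at hx3; exact absurd hx3 (by simp)
            · rw [hI3] at hx3
              have := Sum.inr_injective hx3
              omega
        · refine (g2 I).mono ?_ le_rfl hbB2
          rintro x ⟨⟨hx, hx2⟩, hx3⟩
          rcases Nat.lt_succ_iff_lt_or_eq.mp hx2 with hlt' | heq
          · exfalso
            rw [hκn2 x hlt'] at hx3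
            rcases h3 x hx hlt' with ⟨i, -, hi⟩ | ⟨I', hI1, hI2, hI3⟩
            · rw [hi] at hx3; exact absurd hx3 (by simp)
            · rw [hI3] at hx3
              have := Sum.inr_injective hx3
              omega
          · rw [hκn1 x heq] at hx3
            exact ⟨⟨hx, heq⟩, hx3⟩
      · intro x hx hlt
        rcases Nat.lt_succ_iff_lt_or_eq.mp hlt with hlt' | heq
        · rw [hκn2 x hlt']
          rcases h3 x hx hlt' with h | ⟨I, hI1, hI2, hI3⟩
          · exact Or.inl h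
          · exact Or.inr ⟨I, hI1, hI2.trans_le hM', hI3⟩
        · rw [hκn1 x heq]
          rcases g3 x ⟨hx, heq⟩ with h | ⟨I, hI1, hI2, hI3⟩
          · exact Or.inl h
          · exact Or.inr ⟨I, hMc.trans hI1, hI2, hI3⟩
      · intro z
        by_cases hex : ∃ h ∈ C, col h = c ∧ p h = z
        · obtain ⟨h0, hh0, hh1, hh2⟩ := hex
          have g := g1 h0 ⟨hh0, hh1⟩ n (by omega)
          rw [Function.update_self] at g
          refine (Clus.union hGm hT0 hb hB (h4 z) g).mono ?_ le_rfl le_rfl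
          rintro x ⟨⟨hx, hx2⟩, hx3, hx4⟩
          rcases Nat.lt_succ_iff_lt_or_eq.mp hx2 with hlt' | heq
          · rw [hκn2 x hlt'] at hx4
            exact Or.inl ⟨⟨hx, hlt'⟩, hx3, hx4⟩
          · rw [hκn1 x heq] at hx4
            exact Or.inr ⟨hcolinj _ _ (hx3.trans hh2.symm) (heq.trans hh1.symm), hx4⟩
        · refine (h4 z).mono ?_ le_rfl hbB1
          rintro x ⟨⟨hx, hx2⟩, hx3, hx4⟩
          rcases Nat.lt_succ_iff_lt_or_eq.mp hx2 with hlt' | heq
          · rw [hκn2 x hlt'] at hx4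
            exact ⟨⟨hx, hlt'⟩, hx3, hx4⟩
          · exact absurd ⟨f x, hx, heq, hx3⟩ hex
  obtain ⟨Mc, b, κ, hMc, hb, h1, h2, h3, h4⟩ := key l0
  -- the new labels
  let κf : G → ℕ ⊕ ℕ := fun x => if κ x = Sum.inl n then Sum.inr (M + k (f x)) else κ x
  have hκf1 : ∀ x, κ x = Sum.inl n → κf x = Sum.inr (M + k (f x)) := fun x h => if_pos h
  have hκf2 : ∀ x, κ x ≠ Sum.inl n → κf x = κ x := fun x h => if_neg h
  refine ⟨Mc, b, κf, by omega, hb, ?_, ?_, ?_⟩
  · intro h hh i hi
    refine (h1 h hh (hcol h) i hi).mono ?_ le_rfl le_rfl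
    rintro x ⟨hx, hx2⟩
    refine ⟨hx, ?_⟩
    by_cases hn : κ x = Sum.inl n
    · rw [hκf1 x hn] at hx2; exact absurd hx2 (by simp)
    · rwa [hκf2 x hn] at hx2
  · intro I
    rcases lt_or_ge I (M + m) with hI | hI
    · -- a family of type `n` sets
      have hsub : ∀ x, f x ∈ C → κf x = Sum.inr I → κ x = Sum.inl n ∧ M + k (f x) = I := by
        intro x hx hx2
        by_cases hn : κ x = Sum.inl n
        · rw [hκf1 x hn] at hx2
          exact ⟨hn, Sum.inr_injective hx2⟩
        · exfalso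
          rw [hκf2 x hn] at hx2
          rcases h3 x hx (hcol _) with ⟨i, -, hi⟩ | ⟨I', hI1, hI2, hI3⟩
          · rw [hi] at hx2; exact absurd hx2 (by simp)
          · rw [hI3] at hx2
            have := Sum.inr_injective hx2
            omega
      have hstep : ∀ x y, Step dG {x | f x ∈ C ∧ κf x = Sum.inr I} (R I) x y →
          p (f x) = p (f y) := by
        rintro x y ⟨⟨hx, hx2⟩, ⟨hy, hy2⟩, hxy⟩
        obtain ⟨hx3, hx4⟩ := hsub x hx hx2
        obtain ⟨hy3, hy4⟩ := hsub y hy hy2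
        have hkk : k (f x) = k (f y) := by omega
        apply hkp (f x) (f y) hkk
        rw [hx4]
        exact hω _ x y hxy
      intro x y hchain
      have hres := Chain.restrict (fun x => p (f x)) hstep hchain
      refine h4 (p (f x)) x y (hres.mono ?_ (hRmono (by omega)))
      rintro w ⟨⟨hw1, hw2⟩, hw3⟩
      exact ⟨⟨hw1, hcol _⟩, hw3, (hsub w hw1 hw2).1⟩
    · refine (h2 I).mono ?_ le_rfl le_rfl
      rintro x ⟨hx, hx2⟩
      refine ⟨⟨hx, hcol _⟩, ?_⟩
      by_cases hn : κ x = Sum.inl n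
      · exfalso
        rw [hκf1 x hn] at hx2
        have e1 := Sum.inr_injective hx2
        have e2 := hk (f x)
        omega
      · rwa [hκf2 x hn] at hx2
  · intro x hx
    by_cases hn : κ x = Sum.inl n
    · right
      have e2 := hk (f x)
      exact ⟨M + k (f x), by omega, by omega, hκf1 x hn⟩
    · rw [hκf2 x hn]
      rcases h3 x hx (hcol _) with ⟨i, hi, hi2⟩ | ⟨I, hI1, hI2, hI3⟩
      · left
        refine ⟨i, ?_, hi2⟩
        rcases Nat.lt_succ_iff_lt_or_eq.mp hi with h | h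
        · exact h
        · exact absurd (by rw [hi2, h]) hn
      · exact Or.inr ⟨I, by omega, hI2, hI3⟩

theorem full_surj [Countable H] (hG : IsProperLeftInvariant dG) (hH : IsProperLeftInvariant dH)
    (f : G →* H) (hf : Function.Surjective f) (N : Subgroup G) (hN : ∀ x, x ∈ N ↔ f x = 1)
    (hNC : LabelC (fun a b : N => dG a b)) (hC : LabelC dH) : ClusC dG := by
  intro R hRmono hRpos
  obtain ⟨s, hs⟩ := hf.hasRightInverse
  have hplay : Play dG f R 0 (fun _ => 0) := by
    refine bar_induction (fun n r => Play dG f R n r) (Good (fun a b : N => dG a b)) ?_ ?_ ?_ ?_ _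
    · rintro n r r' hrr ⟨B, k, p, hk, hp, hkp⟩
      exact ⟨B, k, p, hk, hp, fun x y hxy hd => hkp x y hxy (by rw [hrr _ (hk x)]; exact hd)⟩
    · intro n r hg
      exact play_of_good hG f s hs N hN R n r hg
    · intro n r ih
      exact play_step hG hH f R hRmono hRpos hC n r ih
    · intro r
      obtain ⟨m, D, k, p, hk, hp, hkp⟩ := hNC r
      exact ⟨m, D, k, p, hk, hp, hkp⟩
  obtain ⟨M', B, κ, -, hB, -, h2, h3⟩ := hplay 0 Set.univ
  refine ⟨M', fun I => {x | f x ∈ Set.univ ∧ κ x = Sum.inr I}, B, fun I _ => h2 I, fun x => ?_⟩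
  rcases h3 x trivial with ⟨i, hi, -⟩ | ⟨I, -, hI, hI2⟩
  · omega
  · exact ⟨I, hI, trivial, hI2⟩

/-- **Asymptotic property C passes to extensions.** -/
theorem full_ext (hG : IsProperLeftInvariant dG) (hH : IsProperLeftInvariant dH)
    (f : G →* H) (hNC : LabelC (fun a b : f.ker => dG a b)) (hC : LabelC dH) : PropertyC dG := by
  have hHr := hH.restrict f.range
  have := hHr.countable
  refine ClusC.propertyC hG.met (full_surj hG hHr f.rangeRestrict f.rangeRestrict_surjective f.ker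
    (fun x => ?_) hNC (hC.comap hH.met Subtype.val))
  rw [MonoidHom.mem_ker]
  constructor
  · intro h; exact Subtype.ext h
  · intro h; exact congrArg Subtype.val h

end full

end Pool.Agent.Lib.MP_a813f9_gt
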