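import Pool.Agent.Lib.MP_a813f9_gt.Abelian

/-!
# Quotient metrics and series of normal subgroups
-/

set_option autoImplicit false
open Set
open scoped commutatorElement

namespace Pool.Agent.Lib.MP_a813f9_gt

lemma IsProperLeftInvariant.restrict {G : Type} [Group G] {d : G → G → ℝ}
    (h : IsProperLeftInvariant d) (K : Subgroup G) :
    IsProperLeftInvariant (fun a b : K => d a b) where
  self x := h.self _
  symm x y := h.symm _ _
  triangle x y z := h.triangle _ _ _
  eq_of_zero x y hxy := Subtype.ext (h.eq_of_zero _ _ hxy)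
  left g x y := h.left _ _ _
  proper r := by
    have : {x : K | d ((1 : K) : G) (x : G) ≤ r} = Subtype.val ⁻¹' {x : G | d 1 x ≤ r} := by
      ext x; rfl
    rw [this]
    exact (h.proper r).preimage Subtype.val_injective.injOn

lemma IsProperLeftInvariant.countable {G : Type} [Group G] {d : G → G → ℝ}
    (h : IsProperLeftInvariant d) : Countable G := by
  have h1 : (⋃ n : ℕ, {x : G | d 1 x ≤ n}) = Set.univ := by
    ext x
    simp only [Set.mem_iUnion, Set.mem_univ, iff_true]
    obtain ⟨n, hn⟩ := exists_nat_ge (d 1 x)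
    exact ⟨n, hn⟩
  have h2 : (⋃ n : ℕ, {x : G | d 1 x ≤ n}).Countable :=
    Set.countable_iUnion (fun n => (h.proper n).countable)
  rw [h1] at h2
  exact Set.countable_univ_iff.mp h2

/-- proper left-invariant metrics descend to quotients -/
lemma exists_quotient_metric {G : Type} [Group G] {d : G → G → ℝ}
    (h : IsProperLeftInvariant d) (N : Subgroup G) [N.Normal] :
    ∃ dQ : G ⧸ N → G ⧸ N → ℝ, IsProperLeftInvariant dQ := by
  classical
  have hmin : ∀ q : G ⧸ N, ∃ g : G, (g : G ⧸ N) = q ∧ ∀ g' : G, (g' : G ⧸ N) = q → d 1 g ≤ d 1 g' := by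
    intro q
    obtain ⟨g0, rfl⟩ := QuotientGroup.mk_surjective q
    have hfin : {g : G | (g : G ⧸ N) = (g0 : G ⧸ N) ∧ d 1 g ≤ d 1 g0}.Finite :=
      (h.proper (d 1 g0)).subset (fun g hg => hg.2)
    obtain ⟨g, hg, hmin⟩ := Set.exists_min_image _ (fun g => d 1 g) hfin ⟨g0, rfl, le_rfl⟩
    refine ⟨g, hg.1, fun g' hg' => ?_⟩
    rcases le_total (d 1 g') (d 1 g0) with h1 | h1
    · exact hmin g' ⟨hg', h1⟩
    · exact hg.2.trans h1
  choose r hr hrmin using hmin
  have hm := h.met
  refine ⟨fun x y => d 1 (r (x⁻¹ * y)), ?_, ?_, ?_, ?_, ?_, ?_⟩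
  · intro x
    have h1 := hrmin (x⁻¹ * x) 1 (by rw [inv_mul_cancel]; rfl)
    rw [h.self] at h1
    exact le_antisymm h1 (hm.nonneg _ _)
  · intro x y
    apply le_antisymm
    · have := hrmin (x⁻¹ * y) (r (y⁻¹ * x))⁻¹ (by
        rw [QuotientGroup.mk_inv, hr]; group)
      rwa [h.norm_inv] at this
    · have := hrmin (y⁻¹ * x) (r (x⁻¹ * y))⁻¹ (by
        rw [QuotientGroup.mk_inv, hr]; group)
      rwa [h.norm_inv] at this
  · intro x y z
    have h1 := hrmin (x⁻¹ * z) (r (x⁻¹ * y) * r (y⁻¹ * z)) (by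
      rw [QuotientGroup.mk_mul, hr, hr]; group)
    have h2 := h.triangle 1 (r (x⁻¹ * y)) (r (x⁻¹ * y) * r (y⁻¹ * z))
    rw [h.dist_mul_right] at h2
    linarith
  · intro x y hxy
    have h1 := h.eq_of_zero _ _ hxy
    have h2 := hr (x⁻¹ * y)
    rw [← h1] at h2
    have h3 : x⁻¹ * y = 1 := by rw [← h2]; rfl
    exact (inv_mul_eq_one.mp h3)
  · intro g x y
    have : (g * x)⁻¹ * (g * y) = x⁻¹ * y := by group
    rw [this]
  · intro ρ
    refine ((h.proper ρ).image (fun g : G => (g : G ⧸ N))).subset ?_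
    intro x hx
    refine ⟨r (1⁻¹ * x), hx, ?_⟩
    change ((r (1⁻¹ * x) : G) : G ⧸ N) = x
    rw [hr, inv_one, one_mul]

lemma labelTwo_of_subsingleton {X : Type} [Subsingleton X] {d : X → X → ℝ} (hd : IsMet d) :
    LabelTwo 1 d := by
  intro S
  refine ⟨0, fun T => ⟨0, fun _ => 0, id, fun x => by norm_num, fun x => ?_, ?_, ?_⟩⟩
  · simp [hd.self]
  · intro x y _ _ _; exact Subsingleton.elim _ _
  · intro x y _ _ _; exact Subsingleton.elim _ _

/-- the extension theorem without surjectivity -/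
theorem ext_general {G H : Type} [Group G] [Group H]
    {dG : G → G → ℝ} {dH : H → H → ℝ} (hG : IsProperLeftInvariant dG)
    (hH : IsProperLeftInvariant dH) (f : G →* H)
    (N : Subgroup G) (hN : ∀ x, x ∈ N ↔ f x = 1) {q : ℕ}
    (hq : LabelTwo q (fun a b : N => dG a b)) (hC : LabelC dH) : PropertyC dG := by
  have hHr := hH.restrict f.range
  have := hHr.countable
  refine ClusC.propertyC hG.met (ext_main hG hHr f.rangeRestrict f.rangeRestrict_surjective N
    (fun x => ?_) hq (hC.comap hH.met Subtype.val))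
  rw [hN]
  constructor
  · intro h; exact Subtype.ext h
  · intro h; exact congrArg Subtype.val h

/-- every proper left-invariant metric on `Q` has two-scale covers -/
def Small (Q : Type) [Group Q] : Prop :=
  ∀ d : Q → Q → ℝ, IsProperLeftInvariant d → ∃ q, LabelTwo q d

theorem series_ext {G H : Type} [Group G] [Group H]
    {dG : G → G → ℝ} {dH : H → H → ℝ} (hG : IsProperLeftInvariant dG)
    (hH : IsProperLeftInvariant dH) (f : G →* H) (N : ℕ → Subgroup G) [hn : ∀ i, (N i).Normal]
    (hmono : ∀ i, N i ≤ N (i + 1)) (h0 : N 0 = ⊥) (n : ℕ) (hk : N n = f.ker)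
    (hfac : ∀ i < n, Small ((N (i + 1)).map (QuotientGroup.mk' (N i))))
    (hC : PropertyC dH) : PropertyC dG := by
  -- all quotients have property C
  have key : ∀ j, j ≤ n → ∀ dQ : G ⧸ N (n - j) → G ⧸ N (n - j) → ℝ, IsProperLeftInvariant dQ →
      PropertyC dQ := by
    intro j
    induction j with
    | zero =>
      intro _ dQ hdQ
      let φ : G ⧸ N (n - 0) →* H := QuotientGroup.lift (N (n - 0)) f (fun x hx => by
        rw [Nat.sub_zero, hk] at hx; exact hx)
      refine ext_general hdQ hH φ ⊥ (fun x => ?_) (labelTwo_of_subsingleton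
        (hdQ.restrict ⊥).met) hC.label
      constructor
      · intro hx
        rw [Subgroup.mem_bot] at hx
        rw [hx, map_one]
      · intro hx
        obtain ⟨g, rfl⟩ := QuotientGroup.mk_surjective x
        have h1 : f g = 1 := hx
        rw [Subgroup.mem_bot, QuotientGroup.eq_one_iff, Nat.sub_zero, hk]
        exact h1
    | succ j ih =>
      intro hj dQ hdQ
      obtain ⟨dQ', hdQ'⟩ := exists_quotient_metric hG (N (n - j))
      have hC' := ih (by omega) dQ' hdQ'
      have hsucc : n - j = (n - (j + 1)) + 1 := by omega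
      have hle : N (n - (j + 1)) ≤ N (n - j) := by rw [hsucc]; exact hmono _
      let φ : G ⧸ N (n - (j + 1)) →* G ⧸ N (n - j) :=
        QuotientGroup.map (N (n - (j + 1))) (N (n - j)) (MonoidHom.id G) (by simpa using hle)
      have hsm := hfac (n - (j + 1)) (by omega)
      rw [← hsucc] at hsm
      obtain ⟨q, hq⟩ := hsm _ (hdQ.restrict _)
      refine ext_general hdQ hdQ' φ ((N (n - j)).map (QuotientGroup.mk' (N (n - (j + 1)))))
        (fun x => ?_) hq hC'.label
      constructor
      · rintro ⟨g, hg, rfl⟩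
        exact (QuotientGroup.eq_one_iff g).mpr hg
      · intro hx
        obtain ⟨g, rfl⟩ := QuotientGroup.mk_surjective x
        exact ⟨g, (QuotientGroup.eq_one_iff g).mp hx, rfl⟩
  obtain ⟨dQ, hdQ⟩ := exists_quotient_metric hG (N (n - n))
  have hCQ := key n le_rfl dQ hdQ
  have hbot : N (n - n) = ⊥ := by rw [Nat.sub_self, h0]
  refine ext_general hG hdQ (QuotientGroup.mk' (N (n - n))) ⊥ (fun x => ?_)
    (labelTwo_of_subsingleton (hG.restrict ⊥).met) hCQ.label
  rw [QuotientGroup.mk'_apply, QuotientGroup.eq_one_iff, hbot]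

lemma small_of_comm {Q : Type} [Group Q] (hcomm : ∀ a b : Q, a * b = b * a) : Small Q := by
  intro d hd
  have := hd.countable
  let inst : CommGroup Q := { (inferInstance : Group Q) with mul_comm := hcomm }
  exact ⟨1, abelian_labelTwo (A := Q) hd⟩

theorem solvable_ext {G H : Type} [Group G] [Group H]
    {dG : G → G → ℝ} {dH : H → H → ℝ} (hG : IsProperLeftInvariant dG)
    (hH : IsProperLeftInvariant dH) (f : G →* H) (hsol : Group.IsSolvable f.ker)
    (hC : PropertyC dH) : PropertyC dG := by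
  obtain ⟨n, hn⟩ := hsol.solvable
  let N : ℕ → Subgroup G := fun i => (derivedSeries f.ker (n - i)).map f.ker.subtype
  have hnorm : ∀ i, (N i).Normal := fun i => inferInstance
  refine series_ext hG hH f N ?_ ?_ n ?_ ?_ hC
  · intro i
    exact Subgroup.map_mono (derivedSeries_antitone (G := f.ker) (by omega))
  · simp only [N, Nat.sub_zero, hn, Subgroup.map_bot]
  · simp only [N, Nat.sub_self, derivedSeries_zero]
    rw [← MonoidHom.range_eq_map, Subgroup.range_subtype]
  · intro i hi
    apply small_of_comm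
    rintro ⟨_, ⟨_, ⟨a, ha, rfl⟩, rfl⟩⟩ ⟨_, ⟨_, ⟨b, hb, rfl⟩, rfl⟩⟩
    apply Subtype.ext
    change ((f.ker.subtype a : G) : G ⧸ N i) * ((f.ker.subtype b : G) : G ⧸ N i) =
      ((f.ker.subtype b : G) : G ⧸ N i) * ((f.ker.subtype a : G) : G ⧸ N i)
    rw [← QuotientGroup.mk_mul, ← QuotientGroup.mk_mul, QuotientGroup.eq]
    have h1 : n - i = n - (i + 1) + 1 := by omega
    refine ⟨(a * b)⁻¹ * (b * a), ?_, rfl⟩
    have h2 : (a * b)⁻¹ * (b * a) = ⁅b⁻¹, a⁻¹⁆ := by
      rw [commutatorElement_def]; group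
    rw [h2, h1, derivedSeries_succ]
    exact Subgroup.commutator_mem_commutator (inv_mem hb) (inv_mem ha)

end Pool.Agent.Lib.MP_a813f9_gt
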